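import Mathlib
import Pool.Agent.Results.MP_a793bb_nt.ExceptionsAtEveryLevel
import Pool.Agent.R365.RC.Three
import Pool.Agent.R425.MK.Cnt
import Pool.Agent.R482.ST.Star

/-!
# Points of a number field in windows of heights

The count of the exceptional points of the abc inequality over a number field, by the height over
`K`, and the windows around the values of starshaped functions; one exceptional set of parameters
for all number fields and all finite sets of primes.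
-/

set_option autoImplicit false

namespace Pool.Agent.T6.H44.WinK

open NumberField IsDedekindDomain Filter Topology
open Pool.Agent.W223.AK (H3 R3)
open Pool.Agent.R365.RC (z3 z3_one z3_sum z3_div H3_eq R3_eq_z)
open Pool.Agent.Results.MP_a793bb_nt.ExceptionsAtEveryLevel (height rad F)

variable {K : Type} [Field K] [NumberField K]

/-- the exceptions, in the coordinate `y = x 0 / x 1` -/
def Exc (T : Set (HeightOneSpectrum (𝓞 K))) (t c₀ : ℝ) : Set K :=
  {y | y ≠ 0 ∧ y + 1 ≠ 0 ∧ rad T (z3 y) ≤ t * height (z3 y) + c₀}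

theorem dpos (K : Type) [Field K] [NumberField K] : (0 : ℝ) < Module.finrank ℚ K := by
  exact_mod_cast Module.finrank_pos

theorem F_nonneg {t : ℝ} (ht : 0 < t) : 0 ≤ F t := Pool.Agent.R365.AK.eK_nonneg ht

theorem z3_ne (y : K) : z3 y ≠ 0 := by
  intro h
  have := congrFun h 1
  rw [z3_one] at this
  exact one_ne_zero this

theorem count (T : Set (HeightOneSpectrum (𝓞 K))) (hT : T.Finite) (t c₀ : ℝ) (ht0 : 0 < t)
    (ht3 : t ≤ 3) (ε : ℝ) (hε : 0 < ε) :
    ∃ C : ℝ, ∀ X : ℝ, 1 ≤ X →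
      {y | y ∈ Exc T t c₀ ∧ Real.exp ((Module.finrank ℚ K : ℝ) * height (z3 y)) ≤ X}.Finite ∧
      ({y | y ∈ Exc T t c₀ ∧ Real.exp ((Module.finrank ℚ K : ℝ) * height (z3 y)) ≤ X}.ncard : ℝ) ≤
        C * X ^ (F t + ε) := by
  have hd := dpos K
  obtain ⟨C, hC⟩ := Pool.Agent.Results.MP_a793bb_nt.ExceptionsAtEveryLevel.result K T hT t c₀
    ((Module.finrank ℚ K : ℝ) * ε) ht0 ht3 (by positivity)
  refine ⟨C, fun X hX => ?_⟩
  have hX0 : 0 < X := by linarith
  have hB1 : 1 ≤ X ^ (1 / (Module.finrank ℚ K : ℝ)) := Real.one_le_rpow hX (by positivity)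
  have hB0 : 0 < X ^ (1 / (Module.finrank ℚ K : ℝ)) := by positivity
  obtain ⟨h1, h2⟩ := hC _ hB1
  set f : K → Projectivization K (Fin 3 → K) := fun y => Projectivization.mk K (z3 y) (z3_ne y)
    with hf
  have hfinj : Function.Injective f := by
    intro y y' h
    simp only [hf] at h
    rw [Projectivization.mk_eq_mk_iff'] at h
    obtain ⟨a, ha⟩ := h
    have h1 := congrFun ha 1
    have h0 := congrFun ha 0
    rw [Pi.smul_apply, smul_eq_mul] at h0 h1
    rw [z3_one, z3_one, mul_one] at h1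
    rw [h1, one_mul] at h0
    exact h0.symm
  have hsub : ∀ y ∈ {y | y ∈ Exc T t c₀ ∧ Real.exp ((Module.finrank ℚ K : ℝ) * height (z3 y)) ≤ X},
      f y ∈ Pool.Agent.Results.MP_a793bb_nt.ExceptionsAtEveryLevel.Exceptions T t c₀
        (X ^ (1 / (Module.finrank ℚ K : ℝ))) := by
    rintro y ⟨⟨h3, h4, h5⟩, h6⟩
    refine ⟨z3 y, z3_ne y, rfl, z3_sum y, ?_, ?_, h5⟩
    · refine mul_ne_zero (mul_ne_zero h3 one_ne_zero) ?_
      exact neg_ne_zero.2 h4
    · rw [← Real.le_log_iff_exp_le hX0] at h6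
      rw [← Real.le_log_iff_exp_le hB0, Real.log_rpow hX0, one_div, le_inv_mul_iff₀ hd]
      exact h6
  have hfin : {y | y ∈ Exc T t c₀ ∧
      Real.exp ((Module.finrank ℚ K : ℝ) * height (z3 y)) ≤ X}.Finite :=
    Set.Finite.of_finite_image (h1.subset (Set.image_subset_iff.2 hsub)) hfinj.injOn
  refine ⟨hfin, ?_⟩
  have h7 : {y | y ∈ Exc T t c₀ ∧
      Real.exp ((Module.finrank ℚ K : ℝ) * height (z3 y)) ≤ X}.ncard ≤
      (Pool.Agent.Results.MP_a793bb_nt.ExceptionsAtEveryLevel.Exceptions T t c₀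
        (X ^ (1 / (Module.finrank ℚ K : ℝ)))).ncard :=
    Set.ncard_le_ncard_of_injOn f hsub hfinj.injOn h1
  calc (({y | y ∈ Exc T t c₀ ∧
      Real.exp ((Module.finrank ℚ K : ℝ) * height (z3 y)) ≤ X}.ncard : ℕ) : ℝ) ≤ _ := by
        exact_mod_cast h7
    _ ≤ _ := h2
    _ = _ := by
        rw [← Real.rpow_mul hX0.le]
        congr 2
        field_simp

/-- the point and its quotient -/
theorem reduce (T : Set (HeightOneSpectrum (𝓞 K))) (hT : T.Finite) {x : Fin 3 → K}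
    (hs : x 0 + x 1 + x 2 = 0) (hne : x 0 * x 1 * x 2 ≠ 0) :
    x 0 / x 1 ≠ 0 ∧ x 0 / x 1 + 1 ≠ 0 ∧ height x = height (z3 (x 0 / x 1)) ∧
      rad T x = rad T (z3 (x 0 / x 1)) := by
  have g0 : x 0 ≠ 0 := fun h => hne (by rw [h]; ring)
  have g1 : x 1 ≠ 0 := fun h => hne (by rw [h]; ring)
  have g2 : x 2 ≠ 0 := fun h => hne (by rw [h]; ring)
  refine ⟨div_ne_zero g0 g1, ?_, ?_, ?_⟩
  · intro h3
    apply g2
    have h4 : x 0 / x 1 * x 1 = x 0 := div_mul_cancel₀ _ g1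
    have h5 : x 0 / x 1 = -1 := by linear_combination h3
    rw [h5] at h4
    linear_combination hs + h4
  · show H3 x / _ = H3 _ / _
    rw [H3_eq g1 hs]
  · show R3 T x / _ = R3 T _ / _
    rw [R3_eq_z T hT g0 g1 g2 hs]

theorem rad_nonneg (T : Set (HeightOneSpectrum (𝓞 K))) (x : Fin 3 → K) : 0 ≤ rad T x :=
  div_nonneg (Pool.Agent.R425.MK.R3_nonneg T x) (dpos K).le

theorem height_nonneg (y : K) : 0 ≤ height (z3 y) := by
  refine div_nonneg ?_ (dpos K).le
  refine add_nonneg (Finset.sum_nonneg fun w _ => mul_nonneg (Nat.cast_nonneg _)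
    (Real.log_nonneg ?_)) (finsum_nonneg fun v => Real.log_nonneg ?_)
  · have h : w (z3 y 1) = 1 := by
      rw [z3_one, map_one]
    exact le_max_of_le_right (le_max_of_le_left h.ge)
  · have h : FinitePlace.mk v (z3 y 1) = 1 := by
      rw [z3_one, map_one]
    exact le_max_of_le_right (le_max_of_le_left h.ge)

/-- the windows for one field and all sets `T` -/
theorem win (K : Type) [Field K] [NumberField K] {a : ℝ} {f : ℕ → ℝ → ℝ} {τ θ t : ℝ}
    (hf : Pool.Agent.R482.ST.Starshaped a f) (hτ : 0 ≤ τ) (hE : Pool.Agent.R482.ST.Conv a f τ)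
    (hθ : θ < 1) (ht0 : 0 < t) (ht3 : t ≤ 3) :
    ∃ E : Set ℝ, dimH E ≤ ENNReal.ofReal ((F t + τ) / (1 - θ)) ∧
      ∀ α : ℝ, a < α → α ∉ E → ∀ T : Set (HeightOneSpectrum (𝓞 K)), T.Finite → ∀ c₀ c : ℝ,
        ∃ n₀ : ℕ, ∀ n : ℕ, n₀ ≤ n → ∀ x : Fin 3 → K, x 0 + x 1 + x 2 = 0 → x 0 * x 1 * x 2 ≠ 0 →
          |Real.exp ((Module.finrank ℚ K : ℝ) * height x) - f n α| ≤ c * (f n α) ^ θ →
            t * height x + c₀ < rad T x := by
  classical
  have hcp : Countable (HeightOneSpectrum (𝓞 K)) := Pool.Agent.R425.MK.countable_primes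
  have hall : ∀ (T : Finset (HeightOneSpectrum (𝓞 K))) (j : ℕ), ∃ E : Set ℝ,
      dimH E ≤ ENNReal.ofReal ((F t + τ) / (1 - θ)) ∧
      ∀ α : ℝ, a < α → α ∉ E → ∀ c : ℝ, ∃ n₀ : ℕ, ∀ n : ℕ, n₀ ≤ n →
        ∀ y ∈ Exc (T : Set (HeightOneSpectrum (𝓞 K))) t (j : ℝ),
        c * (f n α) ^ θ < |Real.exp ((Module.finrank ℚ K : ℝ) * height (z3 y)) - f n α| :=
    fun T j => Pool.Agent.R482.ST.windows (Exc (T : Set (HeightOneSpectrum (𝓞 K))) t (j : ℝ))
      (fun y => Real.exp ((Module.finrank ℚ K : ℝ) * height (z3 y))) hf hτ hE (F_nonneg ht0) hθ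
      (count (T : Set (HeightOneSpectrum (𝓞 K))) T.finite_toSet t (j : ℝ) ht0 ht3)
  choose G hG1 hG2 using hall
  refine ⟨⋃ T, ⋃ j, G T j, ?_, fun α hα hαE T hT c₀ c => ?_⟩
  · rw [dimH_iUnion]
    refine iSup_le fun T => ?_
    rw [dimH_iUnion]
    exact iSup_le fun j => hG1 T j
  · obtain ⟨T, rfl⟩ := hT.exists_finset_coe
    obtain ⟨j, hj⟩ := exists_nat_ge c₀
    obtain ⟨n₀, hn⟩ := hG2 T j α hα
      (fun h => hαE (Set.mem_iUnion.2 ⟨T, Set.mem_iUnion.2 ⟨j, h⟩⟩)) c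
    refine ⟨n₀, fun n hn1 x hs hne hw => ?_⟩
    obtain ⟨r0, r1, r2, r3⟩ := reduce (T : Set (HeightOneSpectrum (𝓞 K))) hT hs hne
    rw [r2] at hw ⊢
    rw [r3]
    by_contra hcon
    push Not at hcon
    exact absurd (hn n hn1 (x 0 / x 1) ⟨r0, r1, by linarith⟩) (not_lt.2 hw)

/-- the number fields in the algebraic closure of `ℚ` are countable -/
theorem countable_fields :
    Countable {K : IntermediateField ℚ (AlgebraicClosure ℚ) // NumberField K} := by
  have hal : Algebra.IsAlgebraic ℚ (AlgebraicClosure ℚ) := by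
    have h := AlgebraicClosure.isAlgebraic ℚ
    convert h
    all_goals rfl
  have h1 : Countable (AlgebraicClosure ℚ) := by
    have h := Algebraic.countable ℚ (AlgebraicClosure ℚ)
    have h2 : {x : AlgebraicClosure ℚ | IsAlgebraic ℚ x} = Set.univ := by
      ext x
      simp only [Set.mem_ofPred_eq, Set.mem_univ, iff_true]
      exact hal.isAlgebraic x
    rw [h2] at h
    exact Set.countable_univ_iff.1 h
  have h2 : ∀ K : {K : IntermediateField ℚ (AlgebraicClosure ℚ) // NumberField K},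
      ∃ z : Finset (AlgebraicClosure ℚ), Submodule.span ℚ (z : Set (AlgebraicClosure ℚ)) =
        K.1.toSubalgebra.toSubmodule := by
    rintro ⟨K, hK⟩
    have h5 := hK.to_finiteDimensional
    have h6 : Module.Finite ℚ K.toSubalgebra.toSubmodule := by
      convert h5
      all_goals rfl
    exact (Module.Finite.iff_fg.1 h6)
  choose g hg using h2
  have h3 : Function.Injective g := by
    intro K L h
    apply Subtype.ext
    have h4 : K.1.toSubalgebra.toSubmodule = L.1.toSubalgebra.toSubmodule := by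
      rw [← hg K, ← hg L, h]
    ext x
    exact (Submodule.ext_iff.1 h4) x
  exact h3.countable

/-- the windows for all fields and all sets `T` -/
theorem win_all {a : ℝ} {f : ℕ → ℝ → ℝ} {τ θ t : ℝ}
    (hf : Pool.Agent.R482.ST.Starshaped a f) (hτ : 0 ≤ τ) (hE : Pool.Agent.R482.ST.Conv a f τ)
    (hθ : θ < 1) (ht0 : 0 < t) (ht3 : t ≤ 3) :
    ∃ E : Set ℝ, dimH E ≤ ENNReal.ofReal ((F t + τ) / (1 - θ)) ∧
      ∀ α : ℝ, a < α → α ∉ E → ∀ (K : IntermediateField ℚ (AlgebraicClosure ℚ)) [NumberField K]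
        (T : Set (HeightOneSpectrum (𝓞 K))), T.Finite → ∀ c₀ c : ℝ,
        ∃ n₀ : ℕ, ∀ n : ℕ, n₀ ≤ n → ∀ x : Fin 3 → K, x 0 + x 1 + x 2 = 0 → x 0 * x 1 * x 2 ≠ 0 →
          |Real.exp ((Module.finrank ℚ K : ℝ) * height x) - f n α| ≤ c * (f n α) ^ θ →
            t * height x + c₀ < rad T x := by
  have hc := countable_fields
  have hall : ∀ K : {K : IntermediateField ℚ (AlgebraicClosure ℚ) // NumberField K},
      ∃ E : Set ℝ, dimH E ≤ ENNReal.ofReal ((F t + τ) / (1 - θ)) ∧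
      ∀ α : ℝ, a < α → α ∉ E → ∀ (_ : NumberField K.1) (T : Set (HeightOneSpectrum (𝓞 K.1))),
        T.Finite → ∀ c₀ c : ℝ,
        ∃ n₀ : ℕ, ∀ n : ℕ, n₀ ≤ n → ∀ x : Fin 3 → K.1,
          x 0 + x 1 + x 2 = 0 → x 0 * x 1 * x 2 ≠ 0 →
          |Real.exp ((Module.finrank ℚ K.1 : ℝ) * height x) - f n α| ≤ c * (f n α) ^ θ →
            t * height x + c₀ < rad T x := by
    rintro ⟨K, hK⟩
    obtain ⟨E, h1, h2⟩ := win K hf hτ hE hθ ht0 ht3
    exact ⟨E, h1, fun α hα hαE _ T hT => h2 α hα hαE T hT⟩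
  choose G hG1 hG2 using hall
  refine ⟨⋃ K, G K, ?_, fun α hα hαE K hK T hT c₀ c => ?_⟩
  · rw [dimH_iUnion]
    exact iSup_le hG1
  · exact hG2 ⟨K, hK⟩ α hα (fun h => hαE (Set.mem_iUnion.2 ⟨⟨K, hK⟩, h⟩)) hK T hT c₀ c

theorem F_small {t : ℝ} (ht : t ≤ 7 / 15) : F t = 4 * t / 7 := by
  unfold F
  rw [if_pos ht]

/-- the weak form, all fields at once -/
theorem weak_all {a : ℝ} {f : ℕ → ℝ → ℝ} {τ θ : ℝ}
    (hf : Pool.Agent.R482.ST.Starshaped a f) (hτ : 0 ≤ τ) (hE : Pool.Agent.R482.ST.Conv a f τ)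
    (hθ : θ < 1) :
    ∃ E : Set ℝ, dimH E ≤ ENNReal.ofReal (τ / (1 - θ)) ∧
      ∀ α : ℝ, a < α → α ∉ E → ∃ κ : ℝ, ∀ (K : IntermediateField ℚ (AlgebraicClosure ℚ))
        [NumberField K] (T : Set (HeightOneSpectrum (𝓞 K))), T.Finite → ∀ c : ℝ,
        ∃ C : ℝ, ∀ (n : ℕ) (x : Fin 3 → K), x 0 + x 1 + x 2 = 0 → x 0 * x 1 * x 2 ≠ 0 →
          |Real.exp ((Module.finrank ℚ K : ℝ) * height x) - f n α| ≤ c * (f n α) ^ θ →
            height x ≤ κ * rad T x + C := by
  have hθ' : 0 < 1 - θ := by linarith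
  have hall : ∀ m : ℕ, ∃ E : Set ℝ,
      dimH E ≤ ENNReal.ofReal ((4 / 7 * (1 / ((m : ℝ) + 1)) + τ) / (1 - θ)) ∧
      ∀ α : ℝ, a < α → α ∉ E → ∀ (K : IntermediateField ℚ (AlgebraicClosure ℚ)) [NumberField K]
        (T : Set (HeightOneSpectrum (𝓞 K))), T.Finite → ∀ c₀ c : ℝ,
        ∃ n₀ : ℕ, ∀ n : ℕ, n₀ ≤ n → ∀ x : Fin 3 → K, x 0 + x 1 + x 2 = 0 → x 0 * x 1 * x 2 ≠ 0 →
          |Real.exp ((Module.finrank ℚ K : ℝ) * height x) - f n α| ≤ c * (f n α) ^ θ →
            1 / ((m : ℝ) + 3) * height x + c₀ < rad T x := by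
    intro m
    have hm : (0 : ℝ) ≤ m := Nat.cast_nonneg m
    have h13 : 1 / ((m : ℝ) + 3) ≤ 1 / 3 := by
      apply one_div_le_one_div_of_le <;> linarith
    obtain ⟨E, h1, h2⟩ := win_all (t := 1 / ((m : ℝ) + 3)) hf hτ hE hθ (by positivity) (by linarith)
    refine ⟨E, h1.trans (ENNReal.ofReal_le_ofReal ?_), h2⟩
    apply div_le_div_of_nonneg_right _ hθ'.le
    rw [F_small (by linarith)]
    have h3 : 1 / ((m : ℝ) + 3) ≤ 1 / ((m : ℝ) + 1) := by
      apply one_div_le_one_div_of_le <;> linarith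
    linarith
  choose G hG1 hG2 using hall
  refine ⟨⋂ m, G m, ?_, fun α hα hαE => ?_⟩
  · have hlim : Tendsto (fun m : ℕ => ENNReal.ofReal ((4 / 7 * (1 / ((m : ℝ) + 1)) + τ) / (1 - θ)))
        atTop (𝓝 (ENNReal.ofReal ((4 / 7 * 0 + τ) / (1 - θ)))) :=
      ENNReal.tendsto_ofReal
        (((tendsto_one_div_add_atTop_nhds_zero_nat.const_mul _).add_const τ).div_const (1 - θ))
    rw [mul_zero, zero_add] at hlim
    exact ge_of_tendsto' hlim fun m => (dimH_mono (Set.iInter_subset _ m)).trans (hG1 m)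
  · rw [Set.mem_iInter] at hαE
    push Not at hαE
    obtain ⟨m, hm⟩ := hαE
    refine ⟨(m : ℝ) + 3, fun K hK T hT c => ?_⟩
    obtain ⟨n₀, hn⟩ := hG2 m α hα hm K T hT 0 c
    obtain ⟨C, hC⟩ : ∃ C : ℝ, ∀ k : ℕ, k < n₀ → f k α + |c * (f k α) ^ θ| ≤ C := by
      have hpos : ∀ i, 0 ≤ f i α + |c * (f i α) ^ θ| := fun i => by
        have := (hf.2 i α α hα le_rfl).1
        positivity
      exact ⟨∑ k ∈ Finset.range n₀, (f k α + |c * (f k α) ^ θ|), fun k hk =>
        Finset.single_le_sum (f := fun k => f k α + |c * (f k α) ^ θ|) (fun i _ => hpos i)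
          (Finset.mem_range.2 hk)⟩
    have hm0 : (0 : ℝ) ≤ m := Nat.cast_nonneg m
    refine ⟨|C|, fun n x hs hne hw => ?_⟩
    have h5 := rad_nonneg T x
    have hd : (1 : ℝ) ≤ Module.finrank ℚ K := by exact_mod_cast Module.finrank_pos
    rcases Nat.lt_or_ge n n₀ with hlt | hge
    · have h7 : Real.exp ((Module.finrank ℚ K : ℝ) * height x) ≤ |C| := by
        have e1 := (abs_le.1 hw).2
        have e2 := hC n hlt
        have e3 := le_abs_self (c * (f n α) ^ θ)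
        have e4 := le_abs_self C
        linarith
      have h8 := Real.add_one_le_exp ((Module.finrank ℚ K : ℝ) * height x)
      obtain ⟨_, _, r2, _⟩ := reduce T hT hs hne
      have h9 : 0 ≤ height x := by
        rw [r2]
        exact height_nonneg _
      have h10 : height x ≤ (Module.finrank ℚ K : ℝ) * height x := le_mul_of_one_le_left h9 hd
      have h11 : 0 ≤ ((m : ℝ) + 3) * rad T x := by positivity
      linarith
    · have h12 := hn n hge x hs hne hw
      have h13 : 1 / ((m : ℝ) + 3) * height x < rad T x := by linarith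
      rw [one_div, inv_mul_lt_iff₀ (by positivity)] at h13
      have h14 := abs_nonneg C
      linarith

end Pool.Agent.T6.H44.WinK
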